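import Pool.Agent.helper90.KS.Spec

/-!
# MP_26dbae_co: many light pairs (module LT)
-/

set_option autoImplicit false

open scoped BigOperators

namespace Pool.Agent.KS

open Pool.Agent.helper23.TH

noncomputable section

open Classical

theorem LT_cd_symm {V : Type} [Fintype V] (A : V → V → Prop) (x y : V) : cd A x y = cd A y x := by
  unfold cd
  congr 1
  ext m
  simp only [Finset.mem_filter, Finset.mem_univ, true_and]
  exact and_comm

theorem LT_local (hHE : HE_stmt) (hNL : NL_stmt) (hTU : TU_stmt) {V X : Type} [Fintype V]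
    (A : V → V → Prop) (p q : V → X) (s t : ℕ) (hs : 1 ≤ s) (ht : 1 ≤ t) (hPG : PG A p q)
    (hE : ¬ Emb A p q s t) (m : V) :
    (deg A m) ^ 2 ≤ (s + t) * (deg A m + (Finset.univ.filter fun z : V × V =>
      z.1 ≠ z.2 ∧ A m z.1 ∧ A m z.2 ∧ cd A z.1 z.2 < C0 s t).card) := by
  have hno : ¬ ∃ f : Fin (s + t) → {x // A m x}, Function.Injective f ∧
      ∀ i j, i ≠ j → C0 s t ≤ cd A (f i).1 (f j).1 := by
    rintro ⟨f, hf, hg⟩
    apply hE
    apply hHE s t V X A p q hPG
    refine ⟨fun i => (f i).1, ?_⟩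
    intro a b hab
    refine ⟨?_, hg a b hab⟩
    obtain ⟨-, -, -, -, -, -, h7⟩ := hNL V X A p q (Finset.univ.sup fun v => deg A v) 0 hPG
      (fun v => Finset.le_sup (f := fun v => deg A v) (Finset.mem_univ v))
    exact h7 m _ _ (f a).2 (f b).2 (fun h => hab (hf (Subtype.ext h)))
  have h := hTU {x // A m x} (fun x y => C0 s t ≤ cd A x.1 y.1)
    (fun x y hxy => by rw [LT_cd_symm]; exact hxy) (s + t) (by omega) hno
  have hcard : Fintype.card {x // A m x} = deg A m := by
    unfold deg
    rw [Fintype.card_subtype]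
  rw [hcard] at h
  refine h.trans (Nat.mul_le_mul_left _ ?_)
  refine le_trans (Finset.card_le_card (t :=
      (Finset.univ.filter fun q : {x // A m x} × {x // A m x} => q.1 = q.2) ∪
      (Finset.univ.filter fun q : {x // A m x} × {x // A m x} =>
        q.1 ≠ q.2 ∧ cd A q.1.1 q.2.1 < C0 s t)) ?_) ?_
  · intro z hz
    rw [Finset.mem_union, Finset.mem_filter, Finset.mem_filter]
    have hz2 := (@Finset.mem_filter _ _ (_) _ _).mp hz
    by_cases he : z.1 = z.2
    · exact Or.inl ⟨Finset.mem_univ _, he⟩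
    · refine Or.inr ⟨Finset.mem_univ _, he, ?_⟩
      rcases hz2.2 with h' | h'
      · exact absurd h' he
      · exact not_le.mp h'
  refine (Finset.card_union_le _ _).trans ?_
  apply Nat.add_le_add
  · rw [← hcard, ← Finset.card_univ]
    apply Finset.card_le_card_of_injOn (fun z => z.1)
    · intro z _
      exact Finset.mem_coe.mpr (Finset.mem_univ _)
    · intro z hz w hw hzw
      have hz' : z.1 = z.2 := (Finset.mem_filter.mp (Finset.mem_coe.mp hz)).2
      have hw' : w.1 = w.2 := (Finset.mem_filter.mp (Finset.mem_coe.mp hw)).2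
      simp only at hzw
      exact Prod.ext hzw (by rw [← hz', ← hw', hzw])
  · apply Finset.card_le_card_of_injOn (fun z => (z.1.1, z.2.1))
    · intro z hz
      have hz' := (Finset.mem_filter.mp (Finset.mem_coe.mp hz)).2
      refine Finset.mem_coe.mpr (Finset.mem_filter.mpr ⟨Finset.mem_univ _, ?_, z.1.2, z.2.2, hz'.2⟩)
      exact fun h => hz'.1 (Subtype.ext h)
    · intro z _ w _ hzw
      simp only [Prod.mk.injEq] at hzw
      exact Prod.ext (Subtype.ext hzw.1) (Subtype.ext hzw.2)

theorem LT_sum {V X : Type} [Fintype V] (A : V → V → Prop) (p q : V → X) (C : ℕ)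
    (hPG : PG A p q) :
    ∑ m, (Finset.univ.filter fun z : V × V =>
      z.1 ≠ z.2 ∧ A m z.1 ∧ A m z.2 ∧ cd A z.1 z.2 < C).card ≤ C * ∑ v, (Ls A C v).card := by
  have e1 : ∀ m, (Finset.univ.filter fun z : V × V =>
      z.1 ≠ z.2 ∧ A m z.1 ∧ A m z.2 ∧ cd A z.1 z.2 < C).card =
      ∑ x, ∑ y, if x ≠ y ∧ A m x ∧ A m y ∧ cd A x y < C then 1 else 0 := by
    intro m
    rw [Finset.card_filter, Fintype.sum_prod_type]
  rw [Finset.sum_congr rfl fun m _ => e1 m, Finset.sum_comm, Finset.mul_sum]
  apply Finset.sum_le_sum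
  intro x _
  rw [Finset.sum_comm]
  have e2 : ∀ y, (∑ m, if x ≠ y ∧ A m x ∧ A m y ∧ cd A x y < C then 1 else 0) ≤
      if Lg A C x y then C else 0 := by
    intro y
    by_cases h : x ≠ y ∧ cd A x y < C
    · have e3 : (∑ m, if x ≠ y ∧ A m x ∧ A m y ∧ cd A x y < C then 1 else 0) = cd A x y := by
        have e4 : cd A x y = ∑ m, if A x m ∧ A y m then 1 else 0 := by
          unfold cd
          rw [Finset.card_filter]
        refine Eq.trans ?_ e4.symm
        apply Finset.sum_congr rfl
        intro m _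
        congr 1
        apply propext
        constructor
        · rintro ⟨-, h2, h3, -⟩
          exact ⟨hPG.symm _ _ h2, hPG.symm _ _ h3⟩
        · rintro ⟨h2, h3⟩
          exact ⟨h.1, hPG.symm _ _ h2, hPG.symm _ _ h3, h.2⟩
      rw [e3]
      by_cases h1 : 1 ≤ cd A x y
      · rw [if_pos ⟨h.1, h1, h.2⟩]
        exact h.2.le
      · have : cd A x y = 0 := by omega
        rw [this]
        exact Nat.zero_le _
    · have : ∀ m, ¬ (x ≠ y ∧ A m x ∧ A m y ∧ cd A x y < C) := fun m hm => h ⟨hm.1, hm.2.2.2⟩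
      rw [Finset.sum_eq_zero fun m _ => if_neg (this m)]
      exact Nat.zero_le _
  refine (Finset.sum_le_sum fun y _ => e2 y).trans ?_
  rw [← Finset.sum_filter, Finset.sum_const, smul_eq_mul, mul_comm]
  exact le_refl _

/-- Many light pairs. -/
theorem LT (hHE : HE_stmt) (hNL : NL_stmt) (hTU : TU_stmt) : LT_stmt := by
  intro s t V X _ A p q hs ht hPG hE
  have h1 : (∑ v, deg A v) ^ 2 ≤ Fintype.card V * ∑ v, (deg A v) ^ 2 := by
    have := sq_sum_le_card_mul_sum_sq (s := (Finset.univ : Finset V)) (f := fun v => deg A v)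
    rwa [Finset.card_univ] at this
  refine h1.trans (Nat.mul_le_mul_left _ ?_)
  refine (Finset.sum_le_sum fun m _ =>
    LT_local hHE hNL hTU A p q s t hs ht hPG hE m).trans ?_
  rw [← Finset.mul_sum, Finset.sum_add_distrib]
  exact Nat.mul_le_mul_left _ (Nat.add_le_add_left (LT_sum A p q _ hPG) _)

end

end Pool.Agent.KS
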